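import Pool.Agent.Helper62.PM.St7

/-!
# Project PM part 7, module NEC2: the double cones exclude the other cases
-/

set_option autoImplicit false

open MeasureTheory Metric Set Filter Topology
open scoped RealInnerProductSpace ContDiff

namespace Pool.Agent.Helper5.PM7

open Pool.Agent.Helper62.PM6
open Pool.Agent.Helper62.Mink

private theorem cont_comp {f : ℝ → ℝ} (hf : ContinuousOn f (Icc (-1) 1)) :
    Continuous fun θ : ℝ => f (Real.cos θ) :=
  hf.comp_continuous Real.continuous_cos fun x => ⟨Real.neg_one_le_cos x, Real.cos_le_one x⟩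

private theorem int_cos (m : ℕ) (β α : ℝ) :
    ((m : ℝ) + 1) * ∫ θ in β..α, Real.cos θ * Real.sin θ ^ m =
      Real.sin α ^ (m + 1) - Real.sin β ^ (m + 1) := by
  rw [← intervalIntegral.integral_const_mul]
  apply intervalIntegral.integral_eq_sub_of_hasDerivAt
  · intro x _
    have h : HasDerivAt (fun y : ℝ => Real.sin y ^ (m + 1))
        (((m + 1 : ℕ) : ℝ) * Real.sin x ^ (m + 1 - 1) * Real.cos x) x :=
      (Real.hasDerivAt_sin x).pow (m + 1)
    rw [Nat.add_sub_cancel] at h
    have e : ((m : ℝ) + 1) * (Real.cos x * Real.sin x ^ m) =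
        ((m + 1 : ℕ) : ℝ) * Real.sin x ^ m * Real.cos x := by
      push_cast
      ring
    rw [e]
    exact h
  · apply Continuous.intervalIntegrable
    fun_prop

private theorem dco_lin (m : ℕ) (f : ℝ → ℝ) (b : ℝ) (hf : ContinuousOn f (Icc (-1) 1))
    (β α : ℝ) (hβ : Real.cos β ≠ 0) (hα : Real.cos α ≠ 0) :
    dco (m + 3) f β α = dco (m + 3) (fun t => f t - b * t) β α := by
  have hc := cont_comp hf
  have e1 : m + 3 - 2 = m + 1 := by omega
  have e2 : m + 3 - 3 = m := by omega
  have e3 : (((m + 3 : ℕ) : ℝ) - 2) = (m : ℝ) + 1 := by push_cast; ring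
  unfold dco
  rw [e1, e2, e3]
  have h1 : (∫ θ in β..α, (f (Real.cos θ) - b * Real.cos θ) * Real.sin θ ^ m) =
      (∫ θ in β..α, f (Real.cos θ) * Real.sin θ ^ m) -
        b * ∫ θ in β..α, Real.cos θ * Real.sin θ ^ m := by
    rw [← intervalIntegral.integral_const_mul, ← intervalIntegral.integral_sub]
    · congr 1
      funext θ
      ring
    · exact (hc.mul (Real.continuous_sin.pow m)).intervalIntegrable _ _
    · apply Continuous.intervalIntegrable
      fun_prop
  rw [h1]
  have h2 := int_cos m β α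
  have h3 : (f (Real.cos β) - b * Real.cos β) * Real.sin β ^ (m + 1) / Real.cos β =
      f (Real.cos β) * Real.sin β ^ (m + 1) / Real.cos β - b * Real.sin β ^ (m + 1) := by
    field_simp
  have h4 : (f (Real.cos α) - b * Real.cos α) * Real.sin α ^ (m + 1) / Real.cos α =
      f (Real.cos α) * Real.sin α ^ (m + 1) / Real.cos α - b * Real.sin α ^ (m + 1) := by
    field_simp
  rw [h3, h4]
  linear_combination b * h2

private theorem right_case (m : ℕ) (g : ℝ → ℝ) (hg : ContinuousOn g (Icc (-1) 1))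
    (ht : Tendsto (fun t : ℝ => g t / t) (𝓝[≠] 0) (𝓝 0))
    (hn : NegFirst g)
    (h : ∀ β α : ℝ, 0 ≤ β → β < Real.pi / 2 → Real.pi / 2 < α → α ≤ Real.pi →
      0 ≤ dco (m + 3) g β α) : False := by
  have hpi := Real.pi_pos
  have e1 : m + 3 - 2 = m + 1 := by omega
  have e2 : m + 3 - 3 = m := by omega
  have e3 : (((m + 3 : ℕ) : ℝ) - 2) = (m : ℝ) + 1 := by push_cast; ring
  unfold dco at h
  rw [e1, e2, e3] at h
  have hc := cont_comp hg
  obtain ⟨t0, ⟨ht0, ht1⟩, hsub, hgt⟩ := hn
  obtain ⟨β, hβ⟩ : ∃ β : ℝ, β = Real.arccos t0 := ⟨_, rfl⟩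
  have hcβ : Real.cos β = t0 := by rw [hβ]; exact Real.cos_arccos (by linarith) ht1.le
  have hβ0 : 0 < β := by rw [hβ]; exact Real.arccos_pos.2 ht1
  have hβ1 : β < Real.pi / 2 := by rw [hβ]; exact Real.arccos_lt_pi_div_two.2 ht0
  have hsβ : 0 < Real.sin β := Real.sin_pos_of_pos_of_lt_pi hβ0 (by linarith)
  have hlt : ∀ᶠ α in 𝓝[>] (Real.pi / 2), α < Real.pi :=
    nhdsWithin_le_nhds (Iio_mem_nhds (by linarith))
  have hcos : Tendsto Real.cos (𝓝[>] (Real.pi / 2)) (𝓝[≠] 0) := by
    rw [tendsto_nhdsWithin_iff]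
    constructor
    · have := (Real.continuous_cos.tendsto (Real.pi / 2)).mono_left
        (nhdsWithin_le_nhds (s := Ioi (Real.pi / 2)))
      rwa [Real.cos_pi_div_two] at this
    · filter_upwards [hlt, self_mem_nhdsWithin] with α h1 h2
      exact (Real.cos_neg_of_pi_div_two_lt_of_lt h2 (by linarith)).ne
  have hsin : Tendsto (fun α : ℝ => Real.sin α ^ (m + 1)) (𝓝[>] (Real.pi / 2))
      (𝓝 (Real.sin (Real.pi / 2) ^ (m + 1))) :=
    ((Real.continuous_sin.pow (m + 1)).tendsto _).mono_left nhdsWithin_le_nhds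
  have hq : Tendsto (fun α : ℝ => g (Real.cos α) * Real.sin α ^ (m + 1) / Real.cos α)
      (𝓝[>] (Real.pi / 2)) (𝓝 0) := by
    have h1 := (ht.comp hcos).mul hsin
    rw [zero_mul] at h1
    refine h1.congr fun α => ?_
    simp only [Function.comp]
    ring
  have hint : Tendsto (fun α : ℝ => ∫ θ in β..α, g (Real.cos θ) * Real.sin θ ^ m)
      (𝓝[>] (Real.pi / 2)) (𝓝 (∫ θ in β..(Real.pi / 2), g (Real.cos θ) * Real.sin θ ^ m)) := by
    have h1 : Continuous fun α : ℝ => ∫ θ in β..α, g (Real.cos θ) * Real.sin θ ^ m := by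
      apply intervalIntegral.continuous_primitive
      intro a b
      exact (hc.mul (Real.continuous_sin.pow m)).intervalIntegrable _ _
    exact (h1.tendsto _).mono_left nhdsWithin_le_nhds
  have hlim := ((tendsto_const_nhds (x := g (Real.cos β) * Real.sin β ^ (m + 1) /
    Real.cos β)).sub hq).add (hint.const_mul ((m : ℝ) + 1))
  have hge := ge_of_tendsto hlim (b := 0) (by
    filter_upwards [hlt, self_mem_nhdsWithin] with α h1 h2
    exact h β α hβ0.le hβ1 h2 h1.le)
  rw [sub_zero, hcβ] at hge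
  have hneg : g t0 * Real.sin β ^ (m + 1) / t0 < 0 := by
    apply div_neg_of_neg_of_pos _ ht0
    exact mul_neg_of_neg_of_pos hgt (by positivity)
  have hnp : (∫ θ in β..(Real.pi / 2), g (Real.cos θ) * Real.sin θ ^ m) ≤ 0 := by
    rw [intervalIntegral.integral_of_le hβ1.le, integral_Ioc_eq_integral_Ioo]
    apply setIntegral_nonpos measurableSet_Ioo
    intro θ hθ
    have h1 : 0 < Real.cos θ := Real.cos_pos_of_mem_Ioo ⟨by linarith [hθ.1], hθ.2⟩
    have h2 : Real.cos θ < Real.cos β :=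
      Real.cos_lt_cos_of_nonneg_of_le_pi_div_two hβ0.le hθ.2.le hθ.1
    have h3 : g (Real.cos θ) ≤ 0 := hsub _ ⟨h1.le, by rw [hcβ] at h2; linarith⟩
    have h4 : 0 ≤ Real.sin θ :=
      Real.sin_nonneg_of_nonneg_of_le_pi (by linarith [hθ.1]) (by linarith [hθ.2])
    exact mul_nonpos_of_nonpos_of_nonneg h3 (by positivity)
  have h5 : ((m : ℝ) + 1) * (∫ θ in β..(Real.pi / 2), g (Real.cos θ) * Real.sin θ ^ m) ≤ 0 :=
    mul_nonpos_of_nonneg_of_nonpos (by positivity) hnp
  linarith

private theorem dco_refl (m : ℕ) (g : ℝ → ℝ) (β α : ℝ) :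
    dco (m + 3) (fun t => g (-t)) (Real.pi - α) (Real.pi - β) = dco (m + 3) g β α := by
  unfold dco
  have h1 : (∫ θ in (Real.pi - α)..(Real.pi - β), g (-Real.cos θ) *
      Real.sin θ ^ (m + 3 - 3)) = ∫ θ in β..α, g (Real.cos θ) * Real.sin θ ^ (m + 3 - 3) := by
    have h := intervalIntegral.integral_comp_sub_left
      (fun θ => g (-Real.cos θ) * Real.sin θ ^ (m + 3 - 3)) Real.pi (a := β) (b := α)
    rw [← h]
    congr 1
    funext θ
    rw [Real.cos_pi_sub, Real.sin_pi_sub, neg_neg]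
  rw [h1]
  simp only [Real.cos_pi_sub, Real.sin_pi_sub, neg_neg, div_neg]
  ring

/-- **NEC2.** -/
theorem hNEC2 : StNEC2 := by
  intro n hn f b hf ht hs h
  obtain ⟨m, rfl⟩ : ∃ m : ℕ, n = m + 3 := ⟨n - 3, by omega⟩
  have hg : ContinuousOn (fun t : ℝ => f t - b * t) (Icc (-1) 1) :=
    hf.sub (by fun_prop)
  have h' : ∀ β α : ℝ, 0 ≤ β → β < Real.pi / 2 → Real.pi / 2 < α → α ≤ Real.pi →
      0 ≤ dco (m + 3) (fun t => f t - b * t) β α := by
    intro β α h0 h1 h2 h3
    have hpi := Real.pi_pos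
    rw [← dco_lin m f b hf β α (Real.cos_pos_of_mem_Ioo ⟨by linarith, h1⟩).ne'
      (Real.cos_neg_of_pi_div_two_lt_of_lt h2 (by linarith)).ne]
    exact h β α h0 h1 h2 h3
  rcases hs with hs | hs
  · exact right_case m _ hg ht hs h'
  · apply right_case m (fun t => (fun t : ℝ => f t - b * t) (-t))
    · apply hg.comp (by fun_prop)
      intro t ht
      exact ⟨by linarith [ht.2], by linarith [ht.1]⟩
    · have hneg : Tendsto (fun t : ℝ => -t) (𝓝[≠] 0) (𝓝[≠] 0) := by
        rw [tendsto_nhdsWithin_iff]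
        constructor
        · have := (continuous_neg (G := ℝ)).tendsto 0
          rw [neg_zero] at this
          exact this.mono_left nhdsWithin_le_nhds
        · filter_upwards [self_mem_nhdsWithin] with t h1
          exact neg_ne_zero.2 h1
      have h2 := (ht.comp hneg).neg
      rw [neg_zero] at h2
      refine h2.congr fun t => ?_
      simp only [Function.comp]
      rw [div_neg, neg_neg]
    · have e : (fun t : ℝ => (fun t : ℝ => f t - b * t) (-t)) = fun t => f (-t) + b * t := by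
        funext t
        show f (-t) - b * (-t) = f (-t) + b * t
        ring
      rw [e]
      exact hs
    · intro β α h0 h1 h2 h3
      have h4 := h' (Real.pi - α) (Real.pi - β) (by linarith) (by linarith) (by linarith)
        (by linarith)
      have h5 := dco_refl m (fun t => f t - b * t) (Real.pi - α) (Real.pi - β)
      rw [sub_sub_cancel, sub_sub_cancel] at h5
      rw [h5]
      exact h4

end Pool.Agent.Helper5.PM7
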